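import Pool.Agent.Helper16_Fine.Stmt2
import Pool.Agent.Helper41_TRI.Ker
import Pool.Agent.Helper9_TRI.Bridge
import Pool.Agent.Helper13_TRI.LOOP
import Pool.Agent.Helper13_TRI.SPLIT

/-!
PDK: the heat kernel of an open set.
-/

namespace Pool.Agent.H16F.H8

open MeasureTheory Complex Filter Topology ProbabilityTheory Pool.Agent.H16Iso Pool.Agent.H62T
open scoped ENNReal NNReal

/-- joint measurability -/
theorem ker_meas {D : Set ℂ} (hD : IsOpen D) (m : ℕ) :
    Measurable fun p : ℝ × ℂ × ℂ => Ker D m p.1 p.2.1 p.2.2 := by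
  induction m with
  | zero =>
    have h1 : Measurable (D.indicator (fun _ => (1 : ℝ))) :=
      measurable_const.indicator hD.measurableSet
    have hG : Measurable fun p : ℝ × ℂ × ℂ => G p.1 (p.2.1 - p.2.2) := by
      unfold G
      fun_prop
    have ha : Measurable fun p : ℝ × ℂ × ℂ => D.indicator (fun _ => (1 : ℝ)) p.2.1 :=
      h1.comp (measurable_fst.comp measurable_snd)
    have hb : Measurable fun p : ℝ × ℂ × ℂ => D.indicator (fun _ => (1 : ℝ)) p.2.2 :=
      h1.comp (measurable_snd.comp measurable_snd)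
    have e : (fun p : ℝ × ℂ × ℂ => Ker D 0 p.1 p.2.1 p.2.2) = fun p =>
        D.indicator (fun _ => (1 : ℝ)) p.2.1 * D.indicator (fun _ => (1 : ℝ)) p.2.2
          * G p.1 (p.2.1 - p.2.2) := by
      funext p
      simp only [Ker]
    rw [e]
    exact (ha.mul hb).mul hG
  | succ m ih =>
    have h1 : Measurable fun p : (ℝ × ℂ × ℂ) × ℂ =>
        Ker D m (p.1.1 / 2) p.1.2.1 p.2 * Ker D m (p.1.1 / 2) p.2 p.1.2.2 := by
      have ha : Measurable fun p : (ℝ × ℂ × ℂ) × ℂ => Ker D m (p.1.1 / 2) p.1.2.1 p.2 :=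
        ih.comp (by fun_prop : Measurable fun p : (ℝ × ℂ × ℂ) × ℂ => (p.1.1 / 2, p.1.2.1, p.2))
      have hc : Measurable fun p : (ℝ × ℂ × ℂ) × ℂ => Ker D m (p.1.1 / 2) p.2 p.1.2.2 :=
        ih.comp (by fun_prop : Measurable fun p : (ℝ × ℂ × ℂ) × ℂ => (p.1.1 / 2, p.2, p.1.2.2))
      exact ha.mul hc
    exact (h1.stronglyMeasurable.integral_prod_right' (ν := volume)).measurable

theorem anti {D : Set ℂ} (hD : IsOpen D) {t : ℝ} (ht : 0 < t) (x y : ℂ) :
    Antitone fun m => Ker D m t x y :=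
  antitone_nat_of_succ_le fun m => H41.ker_anti D hD m t ht x y

theorem bdd {D : Set ℂ} (hD : IsOpen D) {t : ℝ} (ht : 0 < t) (x y : ℂ) :
    BddBelow (Set.range fun m => Ker D m t x y) := by
  refine ⟨0, ?_⟩
  rintro _ ⟨m, rfl⟩
  exact ((H41.basic D hD m t ht).2.1 x y).1

theorem pD_nonneg {D : Set ℂ} (hD : IsOpen D) {t : ℝ} (ht : 0 < t) (x y : ℂ) :
    0 ≤ pD D t x y :=
  le_ciInf fun m => ((H41.basic D hD m t ht).2.1 x y).1

theorem pD_le_ker {D : Set ℂ} (hD : IsOpen D) {t : ℝ} (ht : 0 < t) (m : ℕ) (x y : ℂ) :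
    pD D t x y ≤ Ker D m t x y :=
  ciInf_le (bdd hD ht x y) m

theorem pD_le {D : Set ℂ} (hD : IsOpen D) {t : ℝ} (ht : 0 < t) (x y : ℂ) :
    pD D t x y ≤ G t (x - y) :=
  (pD_le_ker hD ht 0 x y).trans ((H41.basic D hD 0 t ht).2.1 x y).2

theorem pD_tendsto {D : Set ℂ} (hD : IsOpen D) {t : ℝ} (ht : 0 < t) (x y : ℂ) :
    Tendsto (fun m => Ker D m t x y) atTop (𝓝 (pD D t x y)) :=
  tendsto_atTop_ciInf (anti hD ht x y) (bdd hD ht x y)

theorem pD_meas {D : Set ℂ} (hD : IsOpen D) :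
    Measurable fun p : ℝ × ℂ × ℂ => pD D p.1 p.2.1 p.2.2 :=
  Measurable.iInf fun m => ker_meas hD m

theorem pD_ck {D : Set ℂ} (hD : IsOpen D) {t : ℝ} (ht : 0 < t) (x y : ℂ) :
    pD D (2 * t) x y = ∫ z, pD D t x z * pD D t z y := by
  have h1 := (tendsto_add_atTop_iff_nat 1).2 (pD_tendsto hD (by positivity : 0 < 2 * t) x y)
  have e : ∀ m, Ker D (m + 1) (2 * t) x y = ∫ z, Ker D m t x z * Ker D m t z y := by
    intro m
    show ∫ z, Ker D m (2 * t / 2) x z * Ker D m (2 * t / 2) z y = _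
    rw [mul_div_cancel_left₀ t two_ne_zero]
  simp only [e] at h1
  refine tendsto_nhds_unique h1 ?_
  refine tendsto_integral_of_dominated_convergence (fun z => G t (x - z) * G t (z - y)) ?_
    (H41.G_integrable t ht x y) ?_ ?_
  · intro m
    exact (H41.ker_integrable D hD m t ht x y).aestronglyMeasurable
  · intro m
    refine Eventually.of_forall fun z => ?_
    have h2 := (H41.basic D hD m t ht).2.1
    rw [Real.norm_of_nonneg (mul_nonneg (h2 x z).1 (h2 z y).1)]
    exact mul_le_mul (h2 x z).2 (h2 z y).2 (h2 z y).1 (H41.G_nonneg ht _)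
  · exact Eventually.of_forall fun z => (pD_tendsto hD ht x z).mul (pD_tendsto hD ht z y)

open H9 in
/-- the kernels in terms of the Brownian loop, for arbitrary open sets -/
theorem bridge' {Ω : Set ℂ} (hΩ : IsOpen Ω) (m : ℕ) : ∀ t : ℝ, 0 < t → ∀ x ∈ Ω, ∀ y ∈ Ω,
    Ker Ω m t x y = G t (x - y) * (PP (Ev Ω m t x y)).toReal := by
  obtain ⟨hmeas, hzero, -, -⟩ := loop_stmt
  have hS := split_stmt
  induction m with
  | zero =>
    intro t ht x hx y hy
    have : Ev Ω 0 t x y = Set.univ := by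
      ext ω
      simp only [Ev, Set.mem_ofPred_eq, Set.mem_univ, iff_true]
      intro k h1 h2
      rw [pow_zero] at h2
      omega
    rw [this, measure_univ]
    simp [Ker, hx, hy]
  | succ m ih =>
    intro t ht x hx y hy
    have ht2 : 0 < t / 2 := by positivity
    set c : ℂ := x / 2 + y / 2 with hc
    set r : ℝ := Real.sqrt (t / 2) with hr
    have hrpos : 0 < r := Real.sqrt_pos.2 ht2
    obtain ⟨hKm, hKb, hKs, -⟩ := H41.basic Ω hΩ m (t / 2) ht2
    -- the probability of the event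
    set F : ℂ → ℝ≥0∞ := fun z => Ω.indicator (fun z => PP (Ev Ω m (t / 2) x z) *
      PP (Ev Ω m (t / 2) z y)) z with hF
    have hFm : Measurable F := by
      refine Measurable.indicator ?_ hΩ.measurableSet
      refine Measurable.mul ?_ ?_
      · exact measurable_measure_prodMk_left
          (measurableSet_ev hΩ hmeas m (t / 2) (f := fun _ : ℂ => x) measurable_const measurable_id)
      · exact measurable_measure_prodMk_left
          (measurableSet_ev hΩ hmeas m (t / 2) (g := fun _ : ℂ => y) measurable_id measurable_const)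
    have hev : PP (Ev Ω (m + 1) t x y) = ∫⁻ z, F (c + (r : ℂ) * z) ∂gam := by
      have hmE := measurableSet_ev' hΩ hmeas (m + 1) t x y
      rw [← hS.measure_preimage hmE.nullMeasurableSet,
        Measure.prod_apply (hS.measurable hmE)]
      refine lintegral_congr fun ζ => ?_
      have hsec : Prod.mk ζ ⁻¹' (join ⁻¹' Ev Ω (m + 1) t x y) =
          {p : Sp × Sp | c + (r : ℂ) * ζ ∈ Ω ∧ p ∈ Ev Ω m (t / 2) x (c + (r : ℂ) * ζ) ×ˢ
            Ev Ω m (t / 2) (c + (r : ℂ) * ζ) y} := by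
        ext p
        simp only [Set.mem_preimage, join_mem_ev hzero m ht, Set.mem_ofPred_eq, Set.mem_prod]
        exact Iff.rfl
      rw [hsec, hF]
      by_cases hz : c + (r : ℂ) * ζ ∈ Ω
      · simp only [hz, true_and, Set.ofPred_mem_eq, Set.indicator_of_mem]
        rw [Measure.prod_prod]
      · simp [hz]
    rw [hev, lintegral_gam_affine F hFm c r hrpos]
    have hr2 : r ^ 2 / 2 = t / 4 := by
      rw [hr, Real.sq_sqrt ht2.le]; ring
    rw [hr2]
    -- the kernel
    have hGpos : 0 ≤ G t (x - y) := by unfold G; positivity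
    have hker : Ker Ω (m + 1) t x y =
        (∫⁻ z, ENNReal.ofReal (Ker Ω m (t / 2) x z * Ker Ω m (t / 2) z y)).toReal := by
      change (∫ z, Ker Ω m (t / 2) x z * Ker Ω m (t / 2) z y) = _
      rw [integral_eq_lintegral_of_nonneg_ae]
      · exact Eventually.of_forall fun z => mul_nonneg (hKb _ _).1 (hKb _ _).1
      · apply Measurable.aestronglyMeasurable
        exact (hKm.comp (measurable_prodMk_left (x := x))).mul
          (hKm.comp (measurable_prodMk_right (y := y)))
    rw [hker]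
    have hint : ∀ z, ENNReal.ofReal (Ker Ω m (t / 2) x z * Ker Ω m (t / 2) z y) =
        ENNReal.ofReal (G t (x - y)) * (ENNReal.ofReal (G (t / 4) (z - c)) * F z) := by
      intro z
      by_cases hz : z ∈ Ω
      · rw [ih (t / 2) ht2 x hx z hz, ih (t / 2) ht2 z hz y hy]
        have e1 : G (t / 2) (x - z) * (PP (Ev Ω m (t / 2) x z)).toReal *
          (G (t / 2) (z - y) * (PP (Ev Ω m (t / 2) z y)).toReal) =
          G t (x - y) * (G (t / 4) (z - c) * ((PP (Ev Ω m (t / 2) x z)).toReal *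
            (PP (Ev Ω m (t / 2) z y)).toReal)) := by
          calc _ = (G (t / 2) (x - z) * G (t / 2) (z - y)) * ((PP (Ev Ω m (t / 2) x z)).toReal *
            (PP (Ev Ω m (t / 2) z y)).toReal) := by ring
            _ = _ := by rw [G_mul_G ht]; ring
        rw [e1, ENNReal.ofReal_mul hGpos, ENNReal.ofReal_mul (by unfold G; positivity),
          ENNReal.ofReal_mul ENNReal.toReal_nonneg,
          ENNReal.ofReal_toReal (measure_ne_top _ _), ENNReal.ofReal_toReal (measure_ne_top _ _)]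
        simp only [hF, Set.indicator_of_mem hz]
      · rw [hKs x z (Or.inr hz)]
        simp only [hF, Set.indicator_of_notMem hz]
        simp
    rw [lintegral_congr hint, lintegral_const_mul', ENNReal.toReal_mul,
      ENNReal.toReal_ofReal hGpos]
    exact ENNReal.ofReal_ne_top

/-- the loop started at `x` stays in `D` at the times `k / 2 ^ m` -/
def EvL (D : Set ℂ) (m : ℕ) (t : ℝ) (x : ℂ) : Set Sp :=
  {ω | ∀ k : ℕ, k ≤ 2 ^ m → x + (Real.sqrt t : ℂ) * loop m ω k ∈ D}

theorem evL_eq {D : Set ℂ} (m : ℕ) (t : ℝ) {x : ℂ} (hx : x ∈ D) :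
    H9.Ev D m t x x = EvL D m t x := by
  obtain ⟨-, hzero, hone, -⟩ := loop_stmt
  ext ω
  simp only [H9.Ev, EvL, Set.mem_ofPred_eq]
  have e : ∀ k : ℕ, ((1 - k / 2 ^ m : ℝ) : ℂ) * x + ((k / 2 ^ m : ℝ) : ℂ) * x = x := by
    intro k
    push_cast
    ring
  constructor
  · intro h k hk
    rcases Nat.eq_zero_or_pos k with rfl | h0
    · rw [hzero]; simpa using hx
    · rcases hk.lt_or_eq with h1 | h1
      · have := h k h0 h1
        rwa [e k] at this
      · rw [h1, hone]; simpa using hx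
  · intro h k _ hk
    rw [e k]
    exact h k hk.le

theorem measurableSet_evL {D : Set ℂ} (hD : IsOpen D) (m : ℕ) (t : ℝ) (x : ℂ) :
    MeasurableSet (EvL D m t x) := by
  have : EvL D m t x = ⋂ (k : ℕ) (_ : k ≤ 2 ^ m),
      {ω : Sp | x + (Real.sqrt t : ℂ) * loop m ω k ∈ D} := by
    ext ω
    simp [EvL]
  rw [this]
  refine MeasurableSet.iInter fun k => MeasurableSet.iInter fun _ => ?_
  exact (measurable_const.add (measurable_const.mul (loop_stmt.1 m k))) hD.measurableSet

theorem evL_anti (D : Set ℂ) (t : ℝ) (x : ℂ) : Antitone fun m => EvL D m t x := by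
  refine antitone_nat_of_succ_le fun m ω h k hk => ?_
  have := h (2 * k) (by rw [pow_succ]; omega)
  rwa [loop_stmt.2.2.2 m ω k hk] at this

theorem pD_diag {D : Set ℂ} (hD : IsOpen D) {t : ℝ} (ht : 0 < t) {x : ℂ} (hx : x ∈ D) :
    pD D t x x = G t 0 * (PP {ω | ∀ m k : ℕ, k ≤ 2 ^ m →
      x + (Real.sqrt t : ℂ) * loop m ω k ∈ D}).toReal := by
  refine tendsto_nhds_unique (pD_tendsto hD ht x x) ?_
  have h1 : ∀ m, Ker D m t x x = G t 0 * (PP (EvL D m t x)).toReal := by
    intro m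
    rw [bridge' hD m t ht x hx x hx, sub_self, evL_eq m t hx]
  simp only [h1]
  have h2 : {ω | ∀ m k : ℕ, k ≤ 2 ^ m → x + (Real.sqrt t : ℂ) * loop m ω k ∈ D} =
      ⋂ m, EvL D m t x := by
    ext ω
    simp [EvL]
  rw [h2]
  refine Tendsto.const_mul _ ?_
  refine (ENNReal.tendsto_toReal (measure_ne_top _ _)).comp ?_
  exact tendsto_measure_iInter_atTop (fun m => (measurableSet_evL hD m t x).nullMeasurableSet)
    (evL_anti D t x) ⟨0, measure_ne_top _ _⟩

/-- PDK -/
theorem pdk : PdkStatement := by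
  intro D hD
  refine ⟨pD_meas hD, fun t ht => ⟨fun x y => ⟨pD_nonneg hD ht x y, pD_le hD ht x y⟩, ?_, ?_,
    pD_ck hD ht, pD_tendsto hD ht, fun x hx => pD_diag hD ht hx⟩⟩
  · intro x y h
    refine le_antisymm ?_ (pD_nonneg hD ht x y)
    exact (pD_le_ker hD ht 0 x y).trans (((H41.basic D hD 0 t ht).2.2.1 x y h).le)
  · intro x y
    unfold pD
    congr 1
    funext m
    exact (H41.basic D hD m t ht).2.2.2 x y

end Pool.Agent.H16F.H8
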