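import Pool.Agent.Helper8_Fine.Pdk
import Pool.Agent.Helper13_Fine.Law2
import Pool.Agent.Helper9_TRI.Moments

/-!
AREA: the trace of the alternating sum of the heat kernels.
-/

namespace Pool.Agent.H16F.H8

open MeasureTheory Complex Filter Topology ProbabilityTheory Pool.Agent.H16Iso Pool.Agent.H62T
open scoped ENNReal NNReal

/-- the loop started at `x` stays in `D` -/
def AE (D : Set ℂ) (t : ℝ) (x : ℂ) : Set Sp :=
  {ω | ∀ m k : ℕ, k ≤ 2 ^ m → x + (Real.sqrt t : ℂ) * loop m ω k ∈ D}

theorem ae_of_notMem {D : Set ℂ} {t : ℝ} {x : ℂ} (hx : x ∉ D) : AE D t x = ∅ := by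
  ext ω
  simp only [AE, Set.mem_ofPred_eq, Set.mem_empty_iff_false, iff_false]
  intro h
  have := h 0 0 (by norm_num)
  rw [loop_stmt.2.1] at this
  exact hx (by simpa using this)

theorem pD_diag_all {D : Set ℂ} (hD : IsOpen D) {t : ℝ} (ht : 0 < t) (x : ℂ) :
    pD D t x x = G t 0 * (PP (AE D t x)).toReal := by
  by_cases hx : x ∈ D
  · exact pD_diag hD ht hx
  · rw [ae_of_notMem hx, (pdk D hD).2 t ht |>.2.1 x x (Or.inl hx)]
    simp

theorem measurableSet_AE2 {D : Set ℂ} (hD : IsOpen D) (t : ℝ) :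
    MeasurableSet {p : ℂ × Sp | p.2 ∈ AE D t p.1} := by
  have : {p : ℂ × Sp | p.2 ∈ AE D t p.1} = ⋂ (m : ℕ) (k : ℕ) (_ : k ≤ 2 ^ m),
      {p : ℂ × Sp | p.1 + (Real.sqrt t : ℂ) * loop m p.2 k ∈ D} := by
    ext p
    simp [AE]
  rw [this]
  refine MeasurableSet.iInter fun m => MeasurableSet.iInter fun k =>
    MeasurableSet.iInter fun _ => ?_
  have hm : Measurable fun p : ℂ × Sp => p.1 + (Real.sqrt t : ℂ) * loop m p.2 k :=
    measurable_fst.add (measurable_const.mul ((loop_stmt.1 m k).comp measurable_snd))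
  exact hm hD.measurableSet

theorem measurableSet_AE {D : Set ℂ} (hD : IsOpen D) (t : ℝ) (x : ℂ) :
    MeasurableSet (AE D t x) :=
  measurable_prodMk_left (x := x) (measurableSet_AE2 hD t)

theorem isOpen_Hh : IsOpen Hh := isOpen_lt continuous_const continuous_im

theorem isOpen_W1 (β : ℝ) : IsOpen (W1 β) :=
  (isOpen_lt continuous_const continuous_im).inter
    (isOpen_lt continuous_const
      (by fun_prop : Continuous fun x : ℂ => x.re * Real.sin β + x.im * Real.cos β))

theorem isOpen_W2 (β : ℝ) : IsOpen (W2 β) :=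
  (isOpen_lt continuous_const continuous_im).inter
    (isOpen_lt (by fun_prop : Continuous fun x : ℂ => x.re * Real.sin β - x.im * Real.cos β)
      continuous_const)

theorem isOpen_Om (β β' : ℝ) : IsOpen (Om β β') := (isOpen_W1 β).inter (isOpen_W2 β')

/-- the loop started at `x` stays in the half-plane and leaves both wedges -/
def SS (β β' t : ℝ) (x : ℂ) : Set Sp := AE Hh t x \ (AE (W1 β) t x ∪ AE (W2 β') t x)

theorem measurableSet_SS2 (β β' t : ℝ) : MeasurableSet {p : ℂ × Sp | p.2 ∈ SS β β' t p.1} :=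
  (measurableSet_AE2 isOpen_Hh t).diff
    ((measurableSet_AE2 (isOpen_W1 β) t).union (measurableSet_AE2 (isOpen_W2 β') t))

theorem sum_eq (β β' : ℝ) {t : ℝ} (ht : 0 < t) (x : ℂ) :
    pD (Om β β') t x x - pD (W1 β) t x x - pD (W2 β') t x x + pD Hh t x x =
      G t 0 * (PP (SS β β' t x)).toReal := by
  rw [pD_diag_all (isOpen_Om β β') ht, pD_diag_all (isOpen_W1 β) ht, pD_diag_all (isOpen_W2 β') ht,
    pD_diag_all isOpen_Hh ht]
  have h1 := measurableSet_AE (isOpen_W1 β) t x
  have h2 := measurableSet_AE (isOpen_W2 β') t x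
  have hO : AE (Om β β') t x = AE (W1 β) t x ∩ AE (W2 β') t x := by
    ext ω
    simp only [AE, Om, Set.mem_ofPred_eq, Set.mem_inter_iff]
    exact ⟨fun h => ⟨fun m k hk => (h m k hk).1, fun m k hk => (h m k hk).2⟩,
      fun h m k hk => ⟨h.1 m k hk, h.2 m k hk⟩⟩
  have hsub : AE (W1 β) t x ∪ AE (W2 β') t x ⊆ AE Hh t x := by
    rintro ω (h | h)
    · exact fun m k hk => (h m k hk).1
    · exact fun m k hk => (h m k hk).1
  have e1 : (PP (SS β β' t x)).toReal =
      (PP (AE Hh t x)).toReal - (PP (AE (W1 β) t x ∪ AE (W2 β') t x)).toReal := by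
    unfold SS
    rw [measure_sdiff hsub (h1.union h2).nullMeasurableSet (measure_ne_top _ _),
      ENNReal.toReal_sub_of_le (measure_mono hsub) (measure_ne_top _ _)]
  have e2 : (PP (AE (W1 β) t x ∪ AE (W2 β') t x)).toReal + (PP (AE (Om β β') t x)).toReal =
      (PP (AE (W1 β) t x)).toReal + (PP (AE (W2 β') t x)).toReal := by
    rw [hO, ← ENNReal.toReal_add (measure_ne_top _ _) (measure_ne_top _ _),
      ← ENNReal.toReal_add (measure_ne_top _ _) (measure_ne_top _ _), measure_union_add_inter _ h2]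
  rw [e1]
  linear_combination (G t 0) * e2

/-! ### the area of a triangle -/

theorem lint_lin {κ : ℝ} (hκ : 0 < κ) (w a : ℝ) :
    ∫⁻ y in Set.Ioi a, ENNReal.ofReal (w - κ * y) =
      ENNReal.ofReal (max (w - κ * a) 0 ^ 2 / (2 * κ)) := by
  rcases le_or_gt (w - κ * a) 0 with h | h
  · rw [max_eq_right h]
    have : ∫⁻ y in Set.Ioi a, ENNReal.ofReal (w - κ * y) = ∫⁻ y in Set.Ioi a, 0 := by
      refine setLIntegral_congr_fun measurableSet_Ioi fun y hy => ?_
      have hy' : a < y := hy
      have := mul_lt_mul_of_pos_left hy' hκ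
      exact ENNReal.ofReal_of_nonpos (by linarith)
    rw [this]
    simp
  · rw [max_eq_left h.le]
    set c : ℝ := w / κ with hc
    have hac : a < c := by
      rw [hc, lt_div_iff₀ hκ]
      linarith
    have hsplit : Set.Ioi a = Set.Ioc a c ∪ Set.Ioi c := (Set.Ioc_union_Ioi_eq_Ioi hac.le).symm
    rw [hsplit, lintegral_union measurableSet_Ioi (by
      rw [Set.disjoint_left]; intro y hy hy'; exact absurd hy.2 (not_le.2 hy'))]
    have h0 : ∫⁻ y in Set.Ioi c, ENNReal.ofReal (w - κ * y) = 0 := by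
      have : ∫⁻ y in Set.Ioi c, ENNReal.ofReal (w - κ * y) = ∫⁻ y in Set.Ioi c, 0 := by
        refine setLIntegral_congr_fun measurableSet_Ioi fun y hy => ?_
        have hy' : c < y := hy
        have h1 : w < y * κ := by rwa [hc, div_lt_iff₀ hκ] at hy'
        exact ENNReal.ofReal_of_nonpos (by linarith)
      rw [this]
      simp
    rw [h0, add_zero]
    have hint : IntervalIntegrable (fun y => w - κ * y) volume a c :=
      (by fun_prop : Continuous fun y : ℝ => w - κ * y).intervalIntegrable _ _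
    rw [← ofReal_integral_eq_lintegral_ofReal]
    · congr 1
      rw [← intervalIntegral.integral_of_le hac.le]
      rw [intervalIntegral.integral_sub intervalIntegrable_const
        ((by fun_prop : Continuous fun y : ℝ => κ * y).intervalIntegrable _ _),
        intervalIntegral.integral_const_mul, intervalIntegral.integral_const, integral_id]
      rw [smul_eq_mul, hc]
      field_simp
      ring
    · exact hint.1
    · refine (ae_restrict_iff' measurableSet_Ioc).2 (Eventually.of_forall fun y hy => ?_)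
      have h1 : y ≤ c := hy.2
      have h2 : y * κ ≤ w := by rwa [hc, le_div_iff₀ hκ] at h1
      show 0 ≤ w - κ * y
      linarith

/-- volume of a set of the plane, by horizontal slices -/
theorem vol_slice {S : Set ℂ} (hS : MeasurableSet S) :
    volume S = ∫⁻ y : ℝ, volume {x : ℝ | (⟨x, y⟩ : ℂ) ∈ S} := by
  have h1 := Complex.volume_preserving_equiv_real_prod.symm.measure_preimage hS.nullMeasurableSet
  rw [← h1, Measure.volume_eq_prod, Measure.prod_apply_symm
    (Complex.measurableEquivRealProd.symm.measurable hS)]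
  rfl

/-- the open and the closed triangle -/
theorem vol_tri {κ : ℝ} (hκ : 0 < κ) (a p q1 q2 r : ℝ) (hk : q1 + q2 = κ) :
    volume {x : ℂ | a < x.im ∧ x.re < p - x.im * q1 ∧ r + x.im * q2 < x.re} =
      ENNReal.ofReal (max (p - r - κ * a) 0 ^ 2 / (2 * κ)) ∧
    volume {x : ℂ | a ≤ x.im ∧ x.re ≤ p - x.im * q1 ∧ r + x.im * q2 ≤ x.re} =
      ENNReal.ofReal (max (p - r - κ * a) 0 ^ 2 / (2 * κ)) := by
  have m1 : MeasurableSet {x : ℂ | a < x.im ∧ x.re < p - x.im * q1 ∧ r + x.im * q2 < x.re} :=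
    ((isOpen_lt continuous_const continuous_im).inter
      ((isOpen_lt continuous_re (by fun_prop)).inter
        (isOpen_lt (by fun_prop) continuous_re))).measurableSet
  have m2 : MeasurableSet {x : ℂ | a ≤ x.im ∧ x.re ≤ p - x.im * q1 ∧ r + x.im * q2 ≤ x.re} :=
    ((isClosed_le continuous_const continuous_im).inter
      ((isClosed_le continuous_re (by fun_prop)).inter
        (isClosed_le (by fun_prop) continuous_re))).measurableSet
  constructor
  · rw [vol_slice m1, ← lint_lin hκ, ← lintegral_indicator measurableSet_Ioi]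
    refine lintegral_congr fun y => ?_
    by_cases hy : a < y
    · rw [Set.indicator_of_mem (show y ∈ Set.Ioi a from hy)]
      have : {x : ℝ | (⟨x, y⟩ : ℂ) ∈
          {x : ℂ | a < x.im ∧ x.re < p - x.im * q1 ∧ r + x.im * q2 < x.re}} =
          Set.Ioo (r + y * q2) (p - y * q1) := by
        ext x
        simp only [Set.mem_ofPred_eq, Set.mem_Ioo]
        exact ⟨fun h => ⟨h.2.2, h.2.1⟩, fun h => ⟨hy, h.2, h.1⟩⟩
      rw [this, Real.volume_Ioo]
      congr 1
      rw [← hk]; ring
    · rw [Set.indicator_of_notMem (show y ∉ Set.Ioi a from hy)]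
      have : {x : ℝ | (⟨x, y⟩ : ℂ) ∈
          {x : ℂ | a < x.im ∧ x.re < p - x.im * q1 ∧ r + x.im * q2 < x.re}} = ∅ := by
        ext x
        simp only [Set.mem_ofPred_eq, Set.mem_empty_iff_false, iff_false]
        exact fun h => hy h.1
      rw [this, measure_empty]
  · rw [vol_slice m2, ← lint_lin hκ, ← lintegral_indicator measurableSet_Ioi]
    refine lintegral_congr_ae ?_
    have hae : ∀ᵐ y : ℝ, y ≠ a := by
      rw [ae_iff]; simp
    filter_upwards [hae] with y hya
    by_cases hy : a < y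
    · rw [Set.indicator_of_mem (show y ∈ Set.Ioi a from hy)]
      have : {x : ℝ | a ≤ y ∧ x ≤ p - y * q1 ∧ r + y * q2 ≤ x} =
          Set.Icc (r + y * q2) (p - y * q1) := by
        ext x
        simp only [Set.mem_ofPred_eq, Set.mem_Icc]
        exact ⟨fun h => ⟨h.2.2, h.2.1⟩, fun h => ⟨hy.le, h.2, h.1⟩⟩
      rw [this, Real.volume_Icc]
      congr 1
      rw [← hk]; ring
    · rw [Set.indicator_of_notMem (show y ∉ Set.Ioi a from hy)]
      have : {x : ℝ | a ≤ y ∧ x ≤ p - y * q1 ∧ r + y * q2 ≤ x} = ∅ := by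
        ext x
        simp only [Set.mem_ofPred_eq, Set.mem_empty_iff_false, iff_false]
        intro h
        exact hy (lt_of_le_of_ne h.1 (Ne.symm hya))
      rw [this, measure_empty]

/-! ### the volume for a fixed loop -/

theorem exists_loop {ω : Sp} {u : ℂ} {r : ℝ} (h : r < hs ω u) : ∃ m k : ℕ, k ≤ 2 ^ m ∧ r < ip u (loop m ω k) := by
  obtain ⟨q, hq⟩ := exists_lt_of_lt_ciSup h
  by_cases h1 : q.2 ≤ 2 ^ q.1
  · rw [if_pos h1] at hq
    exact ⟨q.1, q.2, h1, hq⟩
  · rw [if_neg h1] at hq
    refine ⟨0, 0, by norm_num, ?_⟩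
    rw [loop_stmt.2.1]
    simpa [ip] using hq

theorem ip_loop_le {ω : Sp} {R : ℝ} (hR : ∀ m k, k ≤ 2 ^ m → ‖loop m ω k‖ ≤ R) (u : ℂ)
    {m k : ℕ} (hk : k ≤ 2 ^ m) : ip u (loop m ω k) ≤ hs ω u := by
  have := le_ciSup (H13.bdd_range ω R hR u) (m, k)
  rw [if_pos hk] at this
  exact this

theorem hs_le_of {ω : Sp} {u : ℂ} {r : ℝ} (hr : 0 ≤ r)
    (h : ∀ m k : ℕ, k ≤ 2 ^ m → ip u (loop m ω k) ≤ r) : hs ω u ≤ r := by
  unfold hs
  refine ciSup_le fun q => ?_
  split_ifs with hq
  · exact h _ _ hq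
  · exact hr

/-- direction of the half-plane -/
def v0 : ℂ := -I

/-- direction of the left wedge -/
noncomputable def v1 (β : ℝ) : ℂ := -I * Complex.exp (-β * I)

/-- direction of the right wedge -/
noncomputable def v2 (β : ℝ) : ℂ := -I * Complex.exp (β * I)

theorem v1_re (β : ℝ) : (v1 β).re = -Real.sin β := by
  unfold v1
  have : (-(β : ℂ) * I) = ((-β : ℝ) : ℂ) * I := by push_cast; ring
  rw [this, Complex.mul_re, Complex.exp_ofReal_mul_I_re, Complex.exp_ofReal_mul_I_im]
  simp

theorem v1_im (β : ℝ) : (v1 β).im = -Real.cos β := by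
  unfold v1
  have : (-(β : ℂ) * I) = ((-β : ℝ) : ℂ) * I := by push_cast; ring
  rw [this, Complex.mul_im, Complex.exp_ofReal_mul_I_re, Complex.exp_ofReal_mul_I_im]
  simp

theorem v2_re (β : ℝ) : (v2 β).re = Real.sin β := by
  unfold v2
  rw [Complex.mul_re, Complex.exp_ofReal_mul_I_re, Complex.exp_ofReal_mul_I_im]
  simp

theorem v2_im (β : ℝ) : (v2 β).im = -Real.cos β := by
  unfold v2
  rw [Complex.mul_im, Complex.exp_ofReal_mul_I_re, Complex.exp_ofReal_mul_I_im]
  simp

/-- signed length for the rotated loop -/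
noncomputable def YY (β β' : ℝ) (ω : Sp) : ℝ :=
  (hs ω (v1 β) - hs ω v0 * Real.cos β) / Real.sin β
    + (hs ω (v2 β') - hs ω v0 * Real.cos β') / Real.sin β'

theorem cf_eq {β β' : ℝ} (h1 : 0 < Real.sin β) (h2 : 0 < Real.sin β') :
    cf β β' = 1 / (2 * (Real.cos β / Real.sin β + Real.cos β' / Real.sin β')) := by
  unfold cf
  rw [Real.sin_add]
  have e : Real.cos β / Real.sin β + Real.cos β' / Real.sin β' =
      (Real.sin β * Real.cos β' + Real.cos β * Real.sin β') / (Real.sin β * Real.sin β') := by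
    field_simp
    ring
  rw [e]
  by_cases h : Real.sin β * Real.cos β' + Real.cos β * Real.sin β' = 0
  · rw [h]; simp
  · field_simp

theorem vol_SS {β β' : ℝ} (hβ : 0 < β) (hβ2 : β < Real.pi / 2) (hβ' : 0 < β')
    (hβ'2 : β' < Real.pi / 2) {t : ℝ} (ht : 0 < t) {ω : Sp} {R : ℝ}
    (hR : ∀ m k, k ≤ 2 ^ m → ‖loop m ω k‖ ≤ R) :
    volume {x : ℂ | ω ∈ SS β β' t x} =
      ENNReal.ofReal (cf β β' * max (Real.sqrt t * YY β β' ω - 1) 0 ^ 2) := by
  have hpi := Real.pi_pos
  have s1 : 0 < Real.sin β := Real.sin_pos_of_pos_of_lt_pi hβ (by linarith)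
  have s2 : 0 < Real.sin β' := Real.sin_pos_of_pos_of_lt_pi hβ' (by linarith)
  have k1 : 0 < Real.cos β := Real.cos_pos_of_mem_Ioo ⟨by linarith, hβ2⟩
  have k2 : 0 < Real.cos β' := Real.cos_pos_of_mem_Ioo ⟨by linarith, hβ'2⟩
  set s : ℝ := Real.sqrt t with hsd
  have hs0 : 0 < s := Real.sqrt_pos.2 ht
  have sre : ∀ z : ℂ, ((s : ℂ) * z).re = s * z.re := fun z => by simp
  have sim : ∀ z : ℂ, ((s : ℂ) * z).im = s * z.im := fun z => by simp
  have i0 : ∀ z : ℂ, ip v0 z = -z.im := fun z => by simp [ip, v0]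
  have i1 : ∀ z : ℂ, ip (v1 β) z = -(z.re * Real.sin β + z.im * Real.cos β) := fun z => by
    simp only [ip, v1_re, v1_im]; ring
  have i2 : ∀ z : ℂ, ip (v2 β') z = z.re * Real.sin β' - z.im * Real.cos β' := fun z => by
    simp only [ip, v2_re, v2_im]; ring
  set κ : ℝ := Real.cos β / Real.sin β + Real.cos β' / Real.sin β' with hκd
  have hκ : 0 < κ := add_pos (div_pos k1 s1) (div_pos k2 s2)
  obtain ⟨e1, e2⟩ := vol_tri hκ (s * hs ω v0) (s * hs ω (v1 β) / Real.sin β)
    (Real.cos β / Real.sin β) (Real.cos β' / Real.sin β')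
    (1 - s * hs ω (v2 β') / Real.sin β') rfl
  have hval : s * hs ω (v1 β) / Real.sin β - (1 - s * hs ω (v2 β') / Real.sin β')
      - κ * (s * hs ω v0) = s * YY β β' ω - 1 := by
    rw [hκd]
    unfold YY
    field_simp
    ring
  rw [hval] at e1 e2
  have hgoal : cf β β' * max (s * YY β β' ω - 1) 0 ^ 2 =
      max (s * YY β β' ω - 1) 0 ^ 2 / (2 * κ) := by
    rw [cf_eq s1 s2]
    ring
  rw [hgoal]
  apply le_antisymm
  · rw [← e2]
    refine measure_mono ?_
    rintro x ⟨hH, hW⟩
    simp only [Set.mem_union, not_or] at hW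
    obtain ⟨hW1, hW2⟩ := hW
    have hH' : ∀ m k : ℕ, k ≤ 2 ^ m → 0 < x.im + s * (loop m ω k).im := by
      intro m k hk
      have := hH m k hk
      change 0 < (x + (s : ℂ) * loop m ω k).im at this
      rwa [Complex.add_im, sim] at this
    refine ⟨?_, ?_, ?_⟩
    · have h0 : 0 ≤ x.im / s := by
        have := hH' 0 0 (by norm_num)
        rw [loop_stmt.2.1] at this
        simp only [zero_im, mul_zero, add_zero] at this
        positivity
      have : hs ω v0 ≤ x.im / s := by
        refine hs_le_of h0 fun m k hk => ?_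
        rw [i0, le_div_iff₀ hs0]
        have := hH' m k hk
        linarith
      rw [le_div_iff₀ hs0] at this
      linarith
    · have : ∃ m k : ℕ, k ≤ 2 ^ m ∧ x + (s : ℂ) * loop m ω k ∉ W1 β := by
        by_contra hn
        push Not at hn
        exact hW1 fun m k hk => hn m k hk
      obtain ⟨m, k, hk, hn⟩ := this
      have h3 : (x + (s : ℂ) * loop m ω k).re * Real.sin β
          + (x + (s : ℂ) * loop m ω k).im * Real.cos β ≤ 0 := by
        by_contra h4
        push Not at h4
        exact hn ⟨hH m k hk, h4⟩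
      rw [Complex.add_re, Complex.add_im, sre, sim] at h3
      have h5 := ip_loop_le hR (v1 β) hk
      rw [i1] at h5
      have h6 := mul_le_mul_of_nonneg_left h5 hs0.le
      have h7 : x.re * Real.sin β + x.im * Real.cos β ≤ s * hs ω (v1 β) := by linarith
      show x.re ≤ s * hs ω (v1 β) / Real.sin β - x.im * (Real.cos β / Real.sin β)
      rw [← mul_div_assoc, ← sub_div, le_div_iff₀ s1]
      linarith
    · have : ∃ m k : ℕ, k ≤ 2 ^ m ∧ x + (s : ℂ) * loop m ω k ∉ W2 β' := by
        by_contra hn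
        push Not at hn
        exact hW2 fun m k hk => hn m k hk
      obtain ⟨m, k, hk, hn⟩ := this
      have h3 : Real.sin β' ≤ (x + (s : ℂ) * loop m ω k).re * Real.sin β'
          - (x + (s : ℂ) * loop m ω k).im * Real.cos β' := by
        by_contra h4
        push Not at h4
        exact hn ⟨hH m k hk, h4⟩
      rw [Complex.add_re, Complex.add_im, sre, sim] at h3
      have h5 := ip_loop_le hR (v2 β') hk
      rw [i2] at h5
      have h6 := mul_le_mul_of_nonneg_left h5 hs0.le
      have h7 : Real.sin β' - s * hs ω (v2 β') + x.im * Real.cos β' ≤ x.re * Real.sin β' := by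
        linarith
      show 1 - s * hs ω (v2 β') / Real.sin β' + x.im * (Real.cos β' / Real.sin β') ≤ x.re
      have e : 1 - s * hs ω (v2 β') / Real.sin β' + x.im * (Real.cos β' / Real.sin β') =
          (Real.sin β' - s * hs ω (v2 β') + x.im * Real.cos β') / Real.sin β' := by
        field_simp
      rw [e, div_le_iff₀ s2]
      exact h7
  · rw [← e1]
    refine measure_mono ?_
    rintro x ⟨h1, h2, h3⟩
    refine ⟨fun m k hk => ?_, ?_⟩
    · show 0 < (x + (s : ℂ) * loop m ω k).im
      rw [Complex.add_im, sim]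
      have h5 := ip_loop_le hR v0 hk
      rw [i0] at h5
      have h6 := mul_le_mul_of_nonneg_left h5 hs0.le
      linarith
    · simp only [Set.mem_union, not_or]
      constructor
      · intro hall
        have h4 : (x.re * Real.sin β + x.im * Real.cos β) / s < hs ω (v1 β) := by
          rw [div_lt_iff₀ hs0]
          have : x.re < s * hs ω (v1 β) / Real.sin β - x.im * (Real.cos β / Real.sin β) := h2
          rw [← mul_div_assoc, ← sub_div, lt_div_iff₀ s1] at this
          linarith
        obtain ⟨m, k, hk, h5⟩ := exists_loop h4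
        rw [i1, div_lt_iff₀ hs0] at h5
        have h6 := (hall m k hk).2
        change 0 < (x + (s : ℂ) * loop m ω k).re * Real.sin β
          + (x + (s : ℂ) * loop m ω k).im * Real.cos β at h6
        rw [Complex.add_re, Complex.add_im, sre, sim] at h6
        linarith
      · intro hall
        have h4 : (Real.sin β' - (x.re * Real.sin β' - x.im * Real.cos β')) / s <
            hs ω (v2 β') := by
          rw [div_lt_iff₀ hs0]
          have h7 : 1 - s * hs ω (v2 β') / Real.sin β' + x.im * (Real.cos β' / Real.sin β') <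
            x.re := h3
          have e : 1 - s * hs ω (v2 β') / Real.sin β' + x.im * (Real.cos β' / Real.sin β') =
              (Real.sin β' - s * hs ω (v2 β') + x.im * Real.cos β') / Real.sin β' := by
            field_simp
          rw [e, div_lt_iff₀ s2] at h7
          linarith
        obtain ⟨m, k, hk, h5⟩ := exists_loop h4
        rw [i2, div_lt_iff₀ hs0] at h5
        have h6 := (hall m k hk).2
        change (x + (s : ℂ) * loop m ω k).re * Real.sin β'
          - (x + (s : ℂ) * loop m ω k).im * Real.cos β' < Real.sin β' at h6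
        rw [Complex.add_re, Complex.add_im, sre, sim] at h6
        linarith

/-! ### the statement -/

theorem am_YY (β β' : ℝ) : H9.AM (YY β β') := by
  have hM := mom osc_stmt
  have h : YY β β' = fun ω => (Real.sin β)⁻¹ * (hs ω (v1 β) + (-Real.cos β) * hs ω v0)
      + (Real.sin β')⁻¹ * (hs ω (v2 β') + (-Real.cos β') * hs ω v0) := by
    funext ω
    unfold YY
    ring
  rw [h]
  exact (H9.AM.const_mul _ ((H9.AM.hs hM _).add ((H9.AM.hs hM _).const_mul _))).add
    (H9.AM.const_mul _ ((H9.AM.hs hM _).add ((H9.AM.hs hM _).const_mul _)))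

theorem measurable_YY (β β' : ℝ) : Measurable (YY β β') := by
  unfold YY
  have h := H41.hs_meas
  exact (((h _).sub ((h _).mul_const _)).div_const _).add
    (((h _).sub ((h _).mul_const _)).div_const _)

theorem integrable_max {f : Sp → ℝ} (hm : Measurable f) (hf : H9.AM f) (c s : ℝ) :
    Integrable (fun ω => c * max (s * f ω - 1) 0 ^ 2) PP := by
  have h1 : H9.AM fun ω => s * f ω + (-1) := (hf.const_mul s).add (H9.AM.const (-1))
  have h2 := (h1.pow 2).integrable
  refine Integrable.const_mul (h2.mono' ?_ (Eventually.of_forall fun ω => ?_)) c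
  · exact ((((hm.const_mul s).sub_const 1).max measurable_const).pow_const 2).aestronglyMeasurable
  · rw [Real.norm_of_nonneg (by positivity)]
    rcases le_total (s * f ω - 1) 0 with h | h
    · rw [max_eq_right h, zero_pow two_ne_zero]
      exact sq_nonneg _
    · rw [max_eq_left h]
      apply le_of_eq
      ring

theorem cf_nonneg {β β' : ℝ} (hβ : 0 < β) (hβ2 : β < Real.pi / 2) (hβ' : 0 < β')
    (hβ'2 : β' < Real.pi / 2) : 0 ≤ cf β β' := by
  have hpi := Real.pi_pos
  unfold cf
  have s1 : 0 < Real.sin β := Real.sin_pos_of_pos_of_lt_pi hβ (by linarith)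
  have s2 : 0 < Real.sin β' := Real.sin_pos_of_pos_of_lt_pi hβ' (by linarith)
  have s3 : 0 < Real.sin (β + β') := Real.sin_pos_of_pos_of_lt_pi (by linarith) (by linarith)
  positivity

/-- the expectation in terms of `Phi` -/
theorem integral_YY (β β' : ℝ) {t : ℝ} (ht : 0 < t) :
    ∫ ω, cf β β' * max (Real.sqrt t * YY β β' ω - 1) 0 ^ 2 ∂PP =
      t * Phi β β' (1 / Real.sqrt t) := by
  have hs0 : 0 < Real.sqrt t := Real.sqrt_pos.2 ht
  obtain ⟨g, hg, hgu⟩ := H13.law2.1 (-I) (by simp)
  have h1 : ∀ ω, Yl β β' (g ω) = YY β β' ω := by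
    intro ω
    unfold Yl YY v1 v2 v0
    rw [hgu, hgu, hgu, mul_one]
  have h2 : ∫ ω, cf β β' * max (Real.sqrt t * YY β β' ω - 1) 0 ^ 2 ∂PP =
      ∫ ω, cf β β' * max (Real.sqrt t * Yl β β' (g ω) - 1) 0 ^ 2 ∂PP := by
    simp only [h1]
  have hmY : Measurable (Yl β β') := by
    unfold Yl
    have h := H41.hs_meas
    exact (((h _).sub ((h _).mul_const _)).div_const _).add
      (((h _).sub ((h _).mul_const _)).div_const _)
  have h3 : ∫ ω, cf β β' * max (Real.sqrt t * Yl β β' (g ω) - 1) 0 ^ 2 ∂PP =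
      ∫ ω, cf β β' * max (Real.sqrt t * Yl β β' ω - 1) 0 ^ 2 ∂PP := by
    have hm : Measurable fun ω => cf β β' * max (Real.sqrt t * Yl β β' ω - 1) 0 ^ 2 :=
      ((((hmY.const_mul _).sub_const 1).max measurable_const).pow_const 2).const_mul _
    have := integral_map hg.measurable.aemeasurable (μ := PP)
      (f := fun ω => cf β β' * max (Real.sqrt t * Yl β β' ω - 1) 0 ^ 2)
      hm.aestronglyMeasurable
    rw [← this, hg.map_eq]
  rw [h2, h3]
  unfold Phi
  rw [← integral_const_mul]
  congr 1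
  funext ω
  have e : max (Real.sqrt t * Yl β β' ω - 1) 0 =
      Real.sqrt t * max (Yl β β' ω - 1 / Real.sqrt t) 0 := by
    rw [mul_max_of_nonneg _ _ hs0.le, mul_zero, mul_sub, mul_one_div, div_self hs0.ne']
  rw [e, mul_pow, Real.sq_sqrt ht.le]
  ring

/-- AREA -/
theorem area : AreaStatement := by
  intro β β' hβ hβ2 hβ' hβ'2 t ht
  have hG : G t 0 = 1 / (4 * Real.pi * t) := by
    unfold G
    simp
  have hGpos : 0 < G t 0 := by rw [hG]; positivity
  have hm2 := measurableSet_SS2 β β' t
  have hlin : ∫⁻ x, PP (SS β β' t x) = ENNReal.ofReal (t * Phi β β' (1 / Real.sqrt t)) := by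
    have h1 : ∫⁻ x, PP (SS β β' t x) =
        ∫⁻ ω, volume {x : ℂ | ω ∈ SS β β' t x} ∂PP := by
      have a1 := Measure.prod_apply (μ := (volume : Measure ℂ)) (ν := PP) hm2
      have a2 := Measure.prod_apply_symm (μ := (volume : Measure ℂ)) (ν := PP) hm2
      rw [a1] at a2
      exact a2
    rw [h1, ← integral_YY β β' ht, ofReal_integral_eq_lintegral_ofReal
      (integrable_max (measurable_YY β β') (am_YY β β') _ _)
      (Eventually.of_forall fun ω => mul_nonneg (cf_nonneg hβ hβ2 hβ' hβ'2) (sq_nonneg _))]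
    refine lintegral_congr_ae ?_
    filter_upwards [H41.ae_bdd osc_stmt] with ω ⟨R, hR⟩
    exact vol_SS hβ hβ2 hβ' hβ'2 ht hR
  have hmeas : AEMeasurable (fun x => PP (SS β β' t x)) volume :=
    (measurable_measure_prodMk_left hm2).aemeasurable
  have hfun : (fun x => pD (Om β β') t x x - pD (W1 β) t x x - pD (W2 β') t x x + pD Hh t x x)
      = fun x => G t 0 * (PP (SS β β' t x)).toReal := funext fun x => sum_eq β β' ht x
  refine ⟨fun x => ?_, ?_, ?_⟩
  · rw [sum_eq β β' ht x]
    exact mul_nonneg hGpos.le ENNReal.toReal_nonneg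
  · rw [hfun]
    refine Integrable.const_mul ?_ _
    refine integrable_toReal_of_lintegral_ne_top hmeas ?_
    rw [hlin]
    exact ENNReal.ofReal_ne_top
  · rw [hfun, integral_const_mul, integral_toReal hmeas
      (Eventually.of_forall fun x => measure_lt_top _ _), hlin]
    have hΦ : 0 ≤ t * Phi β β' (1 / Real.sqrt t) := by
      rw [← integral_YY β β' ht]
      exact integral_nonneg fun ω => mul_nonneg (cf_nonneg hβ hβ2 hβ' hβ'2) (sq_nonneg _)
    rw [ENNReal.toReal_ofReal hΦ, hG]
    field_simp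

end Pool.Agent.H16F.H8
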